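import Pool.Agent.Y16.AF.StmA

/-! Estimates of the Green functions of the interval (project AF). -/

open Pool.Agent.Y16.AF

namespace Pool.Agent.Y528.AF

lemma prod_sinh (a b q : ℝ) (h : 0 < b + q) :
    Real.sinh a * Real.sinh b / Real.sinh (b + q) =
      (Real.exp (a - q) + Real.exp (-a - 2 * b - q) - Real.exp (-a - q) -
        Real.exp (a - 2 * b - q)) / (2 * (1 - Real.exp (-(2 * (b + q))))) := by
  have hs : Real.sinh (b + q) ≠ 0 := (Real.sinh_pos_iff.2 h).ne'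
  have h1 : (1 - Real.exp (-(2 * (b + q)))) ≠ 0 := by
    have : Real.exp (-(2 * (b + q))) < 1 := by
      rw [Real.exp_lt_one_iff]; linarith
    linarith
  rw [div_eq_div_iff hs (by simpa using h1)]
  have e1 : Real.exp (a - q) = Real.exp a * (Real.exp q)⁻¹ := by
    rw [← Real.exp_neg, ← Real.exp_add]; ring_nf
  have e2 : Real.exp (-a - 2 * b - q) =
      (Real.exp a)⁻¹ * (Real.exp b)⁻¹ ^ 2 * (Real.exp q)⁻¹ := by
    rw [← Real.exp_neg, ← Real.exp_neg, ← Real.exp_neg, ← Real.exp_nat_mul, ← Real.exp_add,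
      ← Real.exp_add]; push_cast; ring_nf
  have e3 : Real.exp (-a - q) = (Real.exp a)⁻¹ * (Real.exp q)⁻¹ := by
    rw [← Real.exp_neg, ← Real.exp_neg, ← Real.exp_add]; ring_nf
  have e4 : Real.exp (a - 2 * b - q) = Real.exp a * (Real.exp b)⁻¹ ^ 2 * (Real.exp q)⁻¹ := by
    rw [← Real.exp_neg, ← Real.exp_neg, ← Real.exp_nat_mul, ← Real.exp_add,
      ← Real.exp_add]; push_cast; ring_nf
  have e5 : Real.exp (-(2 * (b + q))) = (Real.exp b)⁻¹ ^ 2 * (Real.exp q)⁻¹ ^ 2 := by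
    rw [← Real.exp_neg, ← Real.exp_neg, ← Real.exp_nat_mul, ← Real.exp_nat_mul,
      ← Real.exp_add]; push_cast; ring_nf
  have e6 : Real.exp (b + q) = Real.exp b * Real.exp q := Real.exp_add _ _
  have e7 : Real.exp (-(b + q)) = (Real.exp b)⁻¹ * (Real.exp q)⁻¹ := by
    rw [Real.exp_neg, Real.exp_add, mul_inv]
  rw [Real.sinh_eq, Real.sinh_eq, Real.sinh_eq, e1, e2, e3, e4, e5, e6, e7, Real.exp_neg,
    Real.exp_neg]
  have ha := (Real.exp_pos a).ne'
  have hb := (Real.exp_pos b).ne'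
  have hq := (Real.exp_pos q).ne'
  field_simp
  ring

lemma prod_cosh (a b q : ℝ) (h : 0 < b + q) :
    Real.cosh a * Real.cosh b / Real.sinh (b + q) =
      (Real.exp (a - q) + Real.exp (-a - 2 * b - q) + Real.exp (-a - q) +
        Real.exp (a - 2 * b - q)) / (2 * (1 - Real.exp (-(2 * (b + q))))) := by
  have hs : Real.sinh (b + q) ≠ 0 := (Real.sinh_pos_iff.2 h).ne'
  have h1 : (1 - Real.exp (-(2 * (b + q)))) ≠ 0 := by
    have : Real.exp (-(2 * (b + q))) < 1 := by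
      rw [Real.exp_lt_one_iff]; linarith
    linarith
  rw [div_eq_div_iff hs (by simpa using h1)]
  have e1 : Real.exp (a - q) = Real.exp a * (Real.exp q)⁻¹ := by
    rw [← Real.exp_neg, ← Real.exp_add]; ring_nf
  have e2 : Real.exp (-a - 2 * b - q) =
      (Real.exp a)⁻¹ * (Real.exp b)⁻¹ ^ 2 * (Real.exp q)⁻¹ := by
    rw [← Real.exp_neg, ← Real.exp_neg, ← Real.exp_neg, ← Real.exp_nat_mul, ← Real.exp_add,
      ← Real.exp_add]; push_cast; ring_nf
  have e3 : Real.exp (-a - q) = (Real.exp a)⁻¹ * (Real.exp q)⁻¹ := by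
    rw [← Real.exp_neg, ← Real.exp_neg, ← Real.exp_add]; ring_nf
  have e4 : Real.exp (a - 2 * b - q) = Real.exp a * (Real.exp b)⁻¹ ^ 2 * (Real.exp q)⁻¹ := by
    rw [← Real.exp_neg, ← Real.exp_neg, ← Real.exp_nat_mul, ← Real.exp_add,
      ← Real.exp_add]; push_cast; ring_nf
  have e5 : Real.exp (-(2 * (b + q))) = (Real.exp b)⁻¹ ^ 2 * (Real.exp q)⁻¹ ^ 2 := by
    rw [← Real.exp_neg, ← Real.exp_neg, ← Real.exp_nat_mul, ← Real.exp_nat_mul,
      ← Real.exp_add]; push_cast; ring_nf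
  have e6 : Real.exp (b + q) = Real.exp b * Real.exp q := Real.exp_add _ _
  have e7 : Real.exp (-(b + q)) = (Real.exp b)⁻¹ * (Real.exp q)⁻¹ := by
    rw [Real.exp_neg, Real.exp_add, mul_inv]
  rw [Real.cosh_eq, Real.cosh_eq, Real.sinh_eq, e1, e2, e3, e4, e5, e6, e7, Real.exp_neg,
    Real.exp_neg]
  have ha := (Real.exp_pos a).ne'
  have hb := (Real.exp_pos b).ne'
  have hq := (Real.exp_pos q).ne'
  field_simp
  ring

lemma exp_neg_two_lt : Real.exp (-2) < 1 / 2 := by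
  have h := Real.add_one_le_exp (1 : ℝ)
  have h2 : Real.exp 2 = Real.exp 1 * Real.exp 1 := by rw [← Real.exp_add]; norm_num
  rw [Real.exp_neg, inv_lt_comm₀ (Real.exp_pos _) (by norm_num)]
  nlinarith

/-- The common estimate. -/
lemma est (σ a b q : ℝ) (hσ : σ = 1 ∨ σ = -1) (ha : 0 ≤ a) (hq : 0 ≤ q) (h : 1 ≤ b + q) :
    |(Real.exp (a - q) + Real.exp (-a - 2 * b - q) + σ * Real.exp (-a - q) +
        σ * Real.exp (a - 2 * b - q)) / (1 - Real.exp (-(2 * (b + q)))) - Real.exp (a - q)| ≤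
      6 * (Real.exp (-a - q) + Real.exp (a - 2 * b - q)) := by
  have hc : Real.exp (-(2 * (b + q))) < 1 / 2 :=
    lt_of_le_of_lt (Real.exp_le_exp.2 (by linarith)) exp_neg_two_lt
  set c := Real.exp (-(2 * (b + q))) with hcdef
  have hc0 : 0 < c := Real.exp_pos _
  have h2 : Real.exp (-a - 2 * b - q) ≤ Real.exp (a - 2 * b - q) := Real.exp_le_exp.2 (by linarith)
  have h20 := Real.exp_pos (-a - 2 * b - q)
  have h5 : Real.exp (a - q) * c ≤ Real.exp (a - 2 * b - q) := by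
    rw [hcdef, ← Real.exp_add]; exact Real.exp_le_exp.2 (by linarith)
  have h50 : 0 < Real.exp (a - q) * c := by positivity
  have h3 := Real.exp_pos (-a - q)
  have h4 := Real.exp_pos (a - 2 * b - q)
  have hne : (1 - c) ≠ 0 := by linarith
  have key : (Real.exp (a - q) + Real.exp (-a - 2 * b - q) + σ * Real.exp (-a - q) +
        σ * Real.exp (a - 2 * b - q)) / (1 - c) - Real.exp (a - q) =
      (Real.exp (-a - 2 * b - q) + σ * Real.exp (-a - q) +
        σ * Real.exp (a - 2 * b - q) + Real.exp (a - q) * c) / (1 - c) := by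
    field_simp; ring
  rw [key, abs_div, abs_of_pos (show 0 < 1 - c by linarith), div_le_iff₀ (by linarith)]
  have hA : |Real.exp (-a - 2 * b - q) + σ * Real.exp (-a - q) +
        σ * Real.exp (a - 2 * b - q) + Real.exp (a - q) * c| ≤
      3 * (Real.exp (-a - q) + Real.exp (a - 2 * b - q)) := by
    rw [abs_le]
    rcases hσ with rfl | rfl
    · constructor <;> linarith
    · constructor <;> linarith
  refine hA.trans ?_
  nlinarith [h3, h4]

/-- The size of the boundary terms. -/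
noncomputable def PP (L : ℕ) (ω : ℝ) (t s : ℕ) : ℝ :=
  Real.exp (-ω) ^ t * Real.exp (-ω) ^ s + Real.exp (-ω) ^ (L - 1 - t) * Real.exp (-ω) ^ (L - 1 - s)

lemma PP_pos (L : ℕ) (ω : ℝ) (t s : ℕ) : 0 < PP L ω t s := by unfold PP; positivity

lemma PP_le (L : ℕ) {ω : ℝ} (hω : 0 < ω) (t s : ℕ) : PP L ω t s ≤ 2 := by
  have h : ∀ n : ℕ, Real.exp (-ω) ^ n ≤ 1 := fun n =>
    pow_le_one₀ (Real.exp_pos _).le (Real.exp_le_one_iff.2 (by linarith))
  have h0 : ∀ n : ℕ, 0 ≤ Real.exp (-ω) ^ n := fun n => by positivity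
  unfold PP
  have h1 := mul_le_one₀ (h t) (h0 s) (h s)
  have h2 := mul_le_one₀ (h (L - 1 - t)) (h0 (L - 1 - s)) (h (L - 1 - s))
  linarith

lemma PP_ge (L : ℕ) {ω : ℝ} {t s : ℕ} (ht : t < L) (hs : s < L) (u v : ℝ)
    (hu : ω * (t + s) ≤ u) (hv : ω * (2 * L - 2 - t - s) ≤ v) :
    Real.exp (-u) + Real.exp (-v) ≤ PP L ω t s := by
  unfold PP
  have h1 : Real.exp (-ω) ^ t * Real.exp (-ω) ^ s = Real.exp (-(ω * (t + s))) := by
    rw [← Real.exp_nat_mul, ← Real.exp_nat_mul, ← Real.exp_add]; ring_nf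
  have h2 : Real.exp (-ω) ^ (L - 1 - t) * Real.exp (-ω) ^ (L - 1 - s) =
      Real.exp (-(ω * (2 * L - 2 - t - s))) := by
    have e1 : ((L - 1 - t : ℕ) : ℝ) = L - 1 - t := by
      rw [Nat.cast_sub (by omega), Nat.cast_sub (by omega)]; simp
    have e2 : ((L - 1 - s : ℕ) : ℝ) = L - 1 - s := by
      rw [Nat.cast_sub (by omega), Nat.cast_sub (by omega)]; simp
    rw [← Real.exp_nat_mul, ← Real.exp_nat_mul, ← Real.exp_add, e1, e2]; ring_nf
  rw [h1, h2]
  exact add_le_add (Real.exp_le_exp.2 (by linarith)) (Real.exp_le_exp.2 (by linarith))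

lemma GD_est {L : ℕ} {ω : ℝ} (hω : 0 < ω) (hL : 1 ≤ ω * L) {t s : ℕ} (ht : t < L) (hs : s < L)
    {t' s' : ℕ} (h1 : t ≤ t') (h2 : t' ≤ t + 1) (h3 : s ≤ s') (h4 : s' ≤ s + 1) :
    |2 * Real.sinh ω * GD L ω t' s' - Real.exp (-(ω * |(t' : ℝ) - s'|))| ≤ 6 * PP L ω t s := by
  have hsh : Real.sinh ω ≠ 0 := (Real.sinh_pos_iff.2 hω).ne'
  set m : ℝ := ((min t' s' : ℕ) : ℝ) with hm
  set M : ℝ := ((max t' s' : ℕ) : ℝ) with hM
  have hmM : M - m = |(t' : ℝ) - s'| := by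
    rw [hm, hM, Nat.cast_max, Nat.cast_min, max_sub_min_eq_abs, abs_sub_comm]
  have hadd : m + M = t' + s' := by
    rw [hm, hM, Nat.cast_max, Nat.cast_min, min_add_max]
  have hm0 : 0 ≤ m := Nat.cast_nonneg _
  have hM0 : 0 ≤ M := Nat.cast_nonneg _
  have hML : ω * (L - M) + ω * M = ω * L := by ring
  have e := prod_sinh (ω * m) (ω * (L - M)) (ω * M) (by rw [hML]; linarith)
  have e2 := est (-1) (ω * m) (ω * (L - M)) (ω * M) (Or.inr rfl) (by positivity) (by positivity)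
    (by rw [hML]; exact hL)
  have e3 : 2 * Real.sinh ω * GD L ω t' s' =
      (Real.exp (ω * m - ω * M) + Real.exp (-(ω * m) - 2 * (ω * (L - M)) - ω * M) +
        -1 * Real.exp (-(ω * m) - ω * M) + -1 * Real.exp (ω * m - 2 * (ω * (L - M)) - ω * M)) /
        (1 - Real.exp (-(2 * (ω * (L - M) + ω * M)))) := by
    have h0 : 2 * Real.sinh ω * GD L ω t' s' =
        2 * (Real.sinh (ω * m) * Real.sinh (ω * (L - M)) / Real.sinh (ω * (L - M) + ω * M)) := by
      rw [hML]; unfold GD; rw [← hm, ← hM]; field_simp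
    rw [h0, e]
    rw [mul_div_assoc', mul_div_mul_left _ _ (two_ne_zero)]
    congr 1
    ring
  rw [← e3] at e2
  have e4 : ω * m - ω * M = -(ω * |(t' : ℝ) - s'|) := by rw [← hmM]; ring
  rw [e4] at e2
  refine e2.trans ?_
  have h5 := PP_ge L ht hs (ω * (t' + s')) (ω * (2 * L - t' - s'))
    (by
      apply mul_le_mul_of_nonneg_left _ hω.le
      have : (t : ℝ) ≤ t' := by exact_mod_cast h1
      have : (s : ℝ) ≤ s' := by exact_mod_cast h3
      linarith)
    (by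
      apply mul_le_mul_of_nonneg_left _ hω.le
      have : (t' : ℝ) ≤ t + 1 := by exact_mod_cast h2
      have : (s' : ℝ) ≤ s + 1 := by exact_mod_cast h4
      linarith)
  have e5 : -(ω * m) - ω * M = -(ω * (t' + s')) := by rw [← hadd]; ring
  have e6 : ω * m - 2 * (ω * (L - M)) - ω * M = -(ω * (2 * L - t' - s')) := by
    have : (t' : ℝ) = m + M - s' := by linarith
    rw [this]; ring
  rw [e5, e6]
  linarith

lemma GN_est {L : ℕ} {ω : ℝ} (hω : 0 < ω) (hL : 1 ≤ ω * L) {t s : ℕ} (ht : t < L) (hs : s < L) :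
    |2 * Real.sinh ω * GN L ω t s - Real.exp (-(ω * |(t : ℝ) - s|))| ≤ 6 * PP L ω t s := by
  have hsh : Real.sinh ω ≠ 0 := (Real.sinh_pos_iff.2 hω).ne'
  set m : ℝ := ((min t s : ℕ) : ℝ) with hm
  set M : ℝ := ((max t s : ℕ) : ℝ) with hM
  have hmM : M - m = |(t : ℝ) - s| := by
    rw [hm, hM, Nat.cast_max, Nat.cast_min, max_sub_min_eq_abs, abs_sub_comm]
  have hadd : m + M = t + s := by
    rw [hm, hM, Nat.cast_max, Nat.cast_min, min_add_max]
  have hm0 : 0 ≤ m := Nat.cast_nonneg _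
  have hM0 : 0 ≤ M := Nat.cast_nonneg _
  have hML : ω * (L - 1 / 2 - M) + ω * (M + 1 / 2) = ω * L := by ring
  have e := prod_cosh (ω * (m + 1 / 2)) (ω * (L - 1 / 2 - M)) (ω * (M + 1 / 2))
    (by rw [hML]; linarith)
  have e2 := est 1 (ω * (m + 1 / 2)) (ω * (L - 1 / 2 - M)) (ω * (M + 1 / 2)) (Or.inl rfl)
    (by positivity) (by positivity) (by rw [hML]; exact hL)
  have e3 : 2 * Real.sinh ω * GN L ω t s =
      (Real.exp (ω * (m + 1 / 2) - ω * (M + 1 / 2)) +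
        Real.exp (-(ω * (m + 1 / 2)) - 2 * (ω * (L - 1 / 2 - M)) - ω * (M + 1 / 2)) +
        1 * Real.exp (-(ω * (m + 1 / 2)) - ω * (M + 1 / 2)) +
        1 * Real.exp (ω * (m + 1 / 2) - 2 * (ω * (L - 1 / 2 - M)) - ω * (M + 1 / 2))) /
        (1 - Real.exp (-(2 * (ω * (L - 1 / 2 - M) + ω * (M + 1 / 2))))) := by
    have h0 : 2 * Real.sinh ω * GN L ω t s =
        2 * (Real.cosh (ω * (m + 1 / 2)) * Real.cosh (ω * (L - 1 / 2 - M)) /
          Real.sinh (ω * (L - 1 / 2 - M) + ω * (M + 1 / 2))) := by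
      rw [hML]; unfold GN; rw [← hm, ← hM]; field_simp
    rw [h0, e]
    rw [mul_div_assoc', mul_div_mul_left _ _ (two_ne_zero)]
    congr 1
    ring
  rw [← e3] at e2
  have e4 : ω * (m + 1 / 2) - ω * (M + 1 / 2) = -(ω * |(t : ℝ) - s|) := by rw [← hmM]; ring
  rw [e4] at e2
  refine e2.trans ?_
  have h5 := PP_ge L ht hs (ω * (t + s + 1)) (ω * (2 * L - t - s - 1))
    (by apply mul_le_mul_of_nonneg_left _ hω.le; linarith)
    (by apply mul_le_mul_of_nonneg_left _ hω.le; linarith)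
  have e5 : -(ω * (m + 1 / 2)) - ω * (M + 1 / 2) = -(ω * (t + s + 1)) := by rw [← hadd]; ring
  have e6 : ω * (m + 1 / 2) - 2 * (ω * (L - 1 / 2 - M)) - ω * (M + 1 / 2) =
      -(ω * (2 * L - t - s - 1)) := by
    have : (t : ℝ) = m + M - s := by linarith
    rw [this]; ring
  rw [e5, e6]
  linarith

end Pool.Agent.Y528.AF
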