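import Pool.Agent.Y528.AF.Sums

/-! Sums over an interval of the products of the Green functions (project AF). -/

open Pool.Agent.Y16.AF

namespace Pool.Agent.Y528.AF

lemma mul_est {U V p q P : ℝ} (h1 : |U - p| ≤ 6 * P) (h2 : |V - q| ≤ 6 * P) (hp0 : 0 ≤ p)
    (hp : p ≤ 1) (hq0 : 0 ≤ q) (hq : q ≤ 1) (hP0 : 0 ≤ P) (hP : P ≤ 2) :
    |U * V - p * q| ≤ 84 * P := by
  have e : U * V - p * q = (U - p) * V + p * (V - q) := by ring
  have hV : |V| ≤ 13 := by
    rw [abs_le] at h2 ⊢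
    constructor <;> linarith [h2.1, h2.2]
  rw [e]
  refine (abs_add_le _ _).trans ?_
  rw [abs_mul, abs_mul, abs_of_nonneg hp0]
  have h3 : |U - p| * |V| ≤ 6 * P * 13 := mul_le_mul h1 hV (abs_nonneg _) (by positivity)
  have h4 : p * |V - q| ≤ 1 * (6 * P) := mul_le_mul hp h2 (abs_nonneg _) (by norm_num)
  linarith

lemma exp_nonpos_le {ω a : ℝ} (hω : 0 < ω) : Real.exp (-(ω * |a|)) ≤ 1 := by
  rw [Real.exp_le_one_iff]
  have := mul_nonneg hω.le (abs_nonneg a)
  linarith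

/-- The contribution of one pair of points. -/
lemma pair_est {L : ℕ} {ω : ℝ} (hω : 0 < ω) (h3 : ω ≤ 3) (hL : 1 ≤ ω * L) {t s : ℕ} (ht : t < L)
    (hs : s < L) {t' s' : ℕ} (h1 : t ≤ t') (h2 : t' ≤ t + 1) (h4 : s ≤ s') (h5 : s' ≤ s + 1) :
    |(2 * Real.sinh ω * GN L ω t s) * (2 * Real.sinh ω * GD L ω t' s') -
      Real.exp (-(ω * |(t : ℝ) - s|)) ^ 2| ≤
      84 * PP L ω t s + 21 * ω * Real.exp (-(ω * |(t : ℝ) - s|)) ^ 2 := by
  have a1 := mul_est (GN_est hω hL ht hs) (GD_est hω hL ht hs h1 h2 h4 h5) (Real.exp_pos _).le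
    (exp_nonpos_le hω) (Real.exp_pos _).le (exp_nonpos_le hω) (PP_pos L ω t s).le (PP_le L hω t s)
  have hd : abs (|(t' : ℝ) - s'| - |(t : ℝ) - s|) ≤ 1 := by
    refine (abs_abs_sub_abs_le _ _).trans ?_
    have c1 : (t : ℝ) ≤ t' := by exact_mod_cast h1
    have c2 : (t' : ℝ) ≤ t + 1 := by exact_mod_cast h2
    have c3 : (s : ℝ) ≤ s' := by exact_mod_cast h4
    have c4 : (s' : ℝ) ≤ s + 1 := by exact_mod_cast h5
    rw [abs_le]
    constructor <;> linarith
  have a2 := exp_step hω h3 hd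
  set p := Real.exp (-(ω * |(t : ℝ) - s|))
  set q := Real.exp (-(ω * |(t' : ℝ) - s'|))
  have hp : 0 < p := Real.exp_pos _
  have a3 : |p * q - p ^ 2| ≤ 21 * ω * p ^ 2 := by
    have : p * q - p ^ 2 = p * (q - p) := by ring
    rw [this, abs_mul, abs_of_pos hp]
    nlinarith
  have a4 := abs_sub_le ((2 * Real.sinh ω * GN L ω t s) * (2 * Real.sinh ω * GD L ω t' s'))
    (p * q) (p ^ 2)
  linarith

theorem af_spy : S_SPY := by
  refine ⟨20000, fun L _ ω hω h3 hL => ?_⟩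
  set E : ℕ → ℕ → ℝ := fun t s => Real.exp (-(ω * |(t : ℝ) - s|)) ^ 2 with hE
  set M2 : ℝ := ∑ t ∈ Finset.range L, ∑ s ∈ Finset.range L, E t s with hM2
  have hM := M2_est L hω h3
  rw [← hM2] at hM
  set S : ℝ := ∑ t ∈ Finset.range L, ∑ s ∈ Finset.range L,
      GN L ω t s * (GD L ω t s + GD L ω (t + 1) s + GD L ω t (s + 1) + GD L ω (t + 1) (s + 1))
    with hS
  have hsh0 : 0 < Real.sinh ω := Real.sinh_pos_iff.2 hω
  have hM0 : 0 ≤ M2 := Finset.sum_nonneg fun _ _ => Finset.sum_nonneg fun _ _ => by positivity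
  -- the estimate before the division
  have key : |4 * Real.sinh ω ^ 2 * S - 4 * M2| ≤ 336 * (32 / ω ^ 2) + 84 * ω * M2 := by
    have e1 : 4 * Real.sinh ω ^ 2 * S - 4 * M2 = ∑ t ∈ Finset.range L, ∑ s ∈ Finset.range L,
        (4 * Real.sinh ω ^ 2 * (GN L ω t s * (GD L ω t s + GD L ω (t + 1) s + GD L ω t (s + 1) +
          GD L ω (t + 1) (s + 1))) - 4 * E t s) := by
      simp_rw [Finset.sum_sub_distrib, ← Finset.mul_sum]
      rw [hS, hM2]
    have e2 : ∀ t ∈ Finset.range L, ∀ s ∈ Finset.range L,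
        |4 * Real.sinh ω ^ 2 * (GN L ω t s * (GD L ω t s + GD L ω (t + 1) s + GD L ω t (s + 1) +
          GD L ω (t + 1) (s + 1))) - 4 * E t s| ≤ 336 * PP L ω t s + 84 * ω * E t s := by
      intro t ht s hs
      rw [Finset.mem_range] at ht hs
      have p1 := pair_est hω h3 hL ht hs (le_refl t) (by omega) (le_refl s) (by omega)
      have p2 := pair_est hω h3 hL ht hs (show t ≤ t + 1 by omega) (by omega) (le_refl s) (by omega)
      have p3 := pair_est hω h3 hL ht hs (le_refl t) (by omega) (show s ≤ s + 1 by omega) (by omega)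
      have p4 := pair_est hω h3 hL ht hs (show t ≤ t + 1 by omega) (by omega)
        (show s ≤ s + 1 by omega) (by omega)
      have e3 : 4 * Real.sinh ω ^ 2 * (GN L ω t s * (GD L ω t s + GD L ω (t + 1) s +
          GD L ω t (s + 1) + GD L ω (t + 1) (s + 1))) - 4 * E t s =
          ((2 * Real.sinh ω * GN L ω t s) * (2 * Real.sinh ω * GD L ω t s) - E t s) +
          ((2 * Real.sinh ω * GN L ω t s) * (2 * Real.sinh ω * GD L ω (t + 1) s) - E t s) +
          ((2 * Real.sinh ω * GN L ω t s) * (2 * Real.sinh ω * GD L ω t (s + 1)) - E t s) +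
          ((2 * Real.sinh ω * GN L ω t s) * (2 * Real.sinh ω * GD L ω (t + 1) (s + 1)) - E t s) := by
        ring
      rw [e3]
      rw [abs_le] at p1 p2 p3 p4 ⊢
      constructor
      · linarith [p1.1, p2.1, p3.1, p4.1]
      · linarith [p1.2, p2.2, p3.2, p4.2]
    rw [e1]
    refine (Finset.abs_sum_le_sum_abs _ _).trans ?_
    have e4 : ∑ t ∈ Finset.range L, |∑ s ∈ Finset.range L,
        (4 * Real.sinh ω ^ 2 * (GN L ω t s * (GD L ω t s + GD L ω (t + 1) s + GD L ω t (s + 1) +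
          GD L ω (t + 1) (s + 1))) - 4 * E t s)| ≤
        ∑ t ∈ Finset.range L, ∑ s ∈ Finset.range L, (336 * PP L ω t s + 84 * ω * E t s) :=
      Finset.sum_le_sum fun t ht => (Finset.abs_sum_le_sum_abs _ _).trans
        (Finset.sum_le_sum fun s hs => e2 t ht s hs)
    refine e4.trans ?_
    simp_rw [Finset.sum_add_distrib, ← Finset.mul_sum]
    rw [← hM2]
    have := sum_PP_le L hω h3
    linarith
  -- the division
  set a : ℝ := 1 / ω with ha
  have ha0 : 0 < a := by positivity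
  have ha3 : 1 ≤ 3 * a := by
    rw [ha, mul_one_div, le_div_iff₀ hω]; linarith
  have hωa : ω * a = 1 := by rw [ha]; field_simp
  have i1 := inv_sinh_le hω
  have i2 := inv_sinh_ge hω h3
  set b : ℝ := 1 / Real.sinh ω ^ 2 with hb
  have hb0 : 0 < b := by positivity
  have f1 : (1 : ℝ) / ω ^ 2 = a ^ 2 := by rw [ha]; field_simp
  have f2 : (22 : ℝ) / ω = 22 * a := by rw [ha]; field_simp
  have f3 : (32 : ℝ) / ω ^ 2 = 32 * a ^ 2 := by rw [ha]; field_simp
  have f4 : (25 : ℝ) / ω ^ 2 = 25 * a ^ 2 := by rw [ha]; field_simp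
  have f5 : (L : ℝ) / ω = L * a := by rw [ha]; field_simp
  have f6 : (L : ℝ) / ω ^ 3 = L * a ^ 3 := by rw [ha]; field_simp
  have f7 : (L : ℝ) / ω ^ 2 = L * a ^ 2 := by rw [ha]; field_simp
  have f8 : (1 : ℝ) / ω ^ 4 = a ^ 4 := by rw [ha]; field_simp
  rw [f1] at i1
  rw [f1, f2] at i2
  rw [f3] at key
  rw [f4, f5] at hM
  rw [f6, f7, f8]
  have hLn : (0 : ℝ) ≤ L := Nat.cast_nonneg _
  have g1 : S - L * a ^ 3 = M2 * (b - a ^ 2) + (M2 - L * a) * a ^ 2 +
      (4 * Real.sinh ω ^ 2 * S - 4 * M2) * (b / 4) := by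
    rw [hb]; field_simp; ring
  rw [g1]
  have hMle : M2 ≤ 4 * (L * a) + 25 * a ^ 2 := by
    rw [abs_le] at hM
    have : (L : ℝ) ≤ 3 * (L * a) := by nlinarith
    linarith [hM.2]
  have hMub : M2 ≤ L * a + L + 25 * a ^ 2 := by
    rw [abs_le] at hM; linarith [hM.2]
  have k1 : |M2 * (b - a ^ 2)| ≤ (4 * (L * a) + 25 * a ^ 2) * (22 * a) := by
    rw [abs_mul, abs_of_nonneg hM0]
    apply mul_le_mul hMle _ (abs_nonneg _) (by positivity)
    rw [abs_le]; constructor <;> linarith [mul_pos (show (0:ℝ) < 22 by norm_num) ha0]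
  have k2 : |(M2 - L * a) * a ^ 2| ≤ (L + 25 * a ^ 2) * a ^ 2 := by
    rw [abs_mul, abs_of_pos (show (0:ℝ) < a ^ 2 by positivity)]
    exact mul_le_mul_of_nonneg_right hM (by positivity)
  have k3 : |(4 * Real.sinh ω ^ 2 * S - 4 * M2) * (b / 4)| ≤
      (336 * (32 * a ^ 2) + 84 * (ω * M2)) * (a ^ 2 / 4) := by
    rw [abs_mul, abs_of_pos (show (0:ℝ) < b / 4 by positivity)]
    apply mul_le_mul (by linarith [key]) (by linarith) (by positivity) (by positivity)
  have k4 : ω * M2 ≤ 4 * L + 25 * a := by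
    calc ω * M2 ≤ ω * (4 * (L * a) + 25 * a ^ 2) := mul_le_mul_of_nonneg_left hMle hω.le
      _ = 4 * L * (ω * a) + 25 * a * (ω * a) := by ring
      _ = 4 * L + 25 * a := by rw [hωa]; ring
  have k5 : (336 * (32 * a ^ 2) + 84 * (ω * M2)) * (a ^ 2 / 4) ≤
      (336 * (32 * a ^ 2) + 84 * (4 * L + 25 * a)) * (a ^ 2 / 4) :=
    mul_le_mul_of_nonneg_right (by linarith) (by positivity)
  have k6 : a ^ 3 ≤ 3 * a ^ 4 := by nlinarith [pow_pos ha0 3]
  refine (abs_add_le _ _).trans ?_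
  refine (add_le_add (abs_add_le _ _) le_rfl).trans ?_
  have k7 : (0 : ℝ) ≤ L * a ^ 2 := by positivity
  have k8 : (0 : ℝ) ≤ a ^ 4 := by positivity
  nlinarith [k1, k2, k3, k5, k6, k7, k8]

end Pool.Agent.Y528.AF
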