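import Pool.Agent.Y528.AF.Green

/-! Sums over an interval (project AF). -/

open Pool.Agent.Y16.AF

namespace Pool.Agent.Y528.AF

lemma sub_exp_ge {ω : ℝ} (hω : 0 < ω) : ω / (1 + ω) ≤ 1 - Real.exp (-ω) := by
  have h := Real.add_one_le_exp ω
  have h1 : Real.exp (-ω) ≤ 1 / (1 + ω) := by
    rw [Real.exp_neg, ← one_div]
    exact one_div_le_one_div_of_le (by linarith) (by linarith)
  have h2 : ω / (1 + ω) = 1 - 1 / (1 + ω) := by field_simp; ring
  linarith

lemma exp_ne {ω : ℝ} (hω : 0 < ω) : 0 < 1 - Real.exp (-ω) :=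
  lt_of_lt_of_le (by positivity) (sub_exp_ge hω)

lemma inv_sub_le {ω : ℝ} (hω : 0 < ω) : 1 / (1 - Real.exp (-ω)) ≤ 1 / ω + 1 := by
  have h := sub_exp_ge hω
  calc 1 / (1 - Real.exp (-ω)) ≤ 1 / (ω / (1 + ω)) :=
        one_div_le_one_div_of_le (by positivity) h
    _ = 1 / ω + 1 := by field_simp

lemma inv_sub_ge {ω : ℝ} (hω : 0 < ω) : 1 / ω ≤ 1 / (1 - Real.exp (-ω)) := by
  apply one_div_le_one_div_of_le (exp_ne hω)
  have := Real.add_one_le_exp (-ω)
  linarith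

lemma geom_le {x : ℝ} (h0 : 0 ≤ x) (h1 : x < 1) (L : ℕ) :
    ∑ t ∈ Finset.range L, x ^ t ≤ 1 / (1 - x) := by
  rw [geom_sum_eq h1.ne, le_div_iff₀ (by linarith)]
  have h : (x ^ L - 1) / (x - 1) * (1 - x) = 1 - x ^ L := by
    have : x - 1 ≠ 0 := by linarith
    field_simp; ring
  rw [h]
  have : 0 ≤ x ^ L := by positivity
  linarith

lemma sum_PP_eq (L : ℕ) (ω : ℝ) :
    ∑ t ∈ Finset.range L, ∑ s ∈ Finset.range L, PP L ω t s =
      2 * (∑ t ∈ Finset.range L, Real.exp (-ω) ^ t) ^ 2 := by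
  unfold PP
  simp_rw [Finset.sum_add_distrib, ← Finset.mul_sum, ← Finset.sum_mul]
  rw [Finset.sum_range_reflect (fun j => Real.exp (-ω) ^ j) L]
  ring

lemma sum_PP_le (L : ℕ) {ω : ℝ} (hω : 0 < ω) (h3 : ω ≤ 3) :
    ∑ t ∈ Finset.range L, ∑ s ∈ Finset.range L, PP L ω t s ≤ 32 / ω ^ 2 := by
  rw [sum_PP_eq]
  have h1 := geom_le (Real.exp_pos (-ω)).le (by have := exp_ne hω; linarith) L
  have h2 := inv_sub_le hω
  have h4 : 1 / ω + 1 ≤ 4 / ω := by
    rw [div_add' _ _ _ hω.ne', div_le_div_iff_of_pos_right hω]; linarith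
  have h5 : 0 ≤ ∑ t ∈ Finset.range L, Real.exp (-ω) ^ t := Finset.sum_nonneg fun _ _ => by positivity
  have h6 : (∑ t ∈ Finset.range L, Real.exp (-ω) ^ t) ^ 2 ≤ (4 / ω) ^ 2 :=
    pow_le_pow_left₀ h5 (by linarith) 2
  calc 2 * (∑ t ∈ Finset.range L, Real.exp (-ω) ^ t) ^ 2 ≤ 2 * (4 / ω) ^ 2 := by linarith
    _ = 32 / ω ^ 2 := by field_simp; norm_num

/-- The distance of two natural numbers. -/
def dd (t s : ℕ) : ℕ := (t - s) + (s - t)

lemma dd_cast (t s : ℕ) : (dd t s : ℝ) = |(t : ℝ) - s| := by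
  unfold dd
  rcases le_total t s with h | h
  · rw [Nat.sub_eq_zero_of_le h, zero_add, Nat.cast_sub h, abs_of_nonpos]
    · ring
    · have : (t : ℝ) ≤ s := by exact_mod_cast h
      linarith
  · rw [Nat.sub_eq_zero_of_le h, add_zero, Nat.cast_sub h, abs_of_nonneg]
    have : (s : ℝ) ≤ t := by exact_mod_cast h
    linarith

lemma dsum (g : ℕ → ℝ) (L : ℕ) : ∑ t ∈ Finset.range L, ∑ s ∈ Finset.range L, g (dd t s) =
    2 * (∑ n ∈ Finset.range L, ∑ r ∈ Finset.range (n + 1), g r) - L * g 0 := by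
  induction L with
  | zero => simp
  | succ L ih =>
    have e1 : ∀ t ∈ Finset.range L, ∑ s ∈ Finset.range (L + 1), g (dd t s) =
        (∑ s ∈ Finset.range L, g (dd t s)) + g ((L - 1 - t) + 1) := by
      intro t ht
      rw [Finset.mem_range] at ht
      rw [Finset.sum_range_succ]
      congr 2
      unfold dd; omega
    have e2 : ∑ s ∈ Finset.range L, g (dd L s) = ∑ s ∈ Finset.range L, g ((L - 1 - s) + 1) := by
      refine Finset.sum_congr rfl fun s hs => ?_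
      rw [Finset.mem_range] at hs
      congr 1
      unfold dd; omega
    have e3 : dd L L = 0 := by unfold dd; omega
    rw [Finset.sum_range_succ, Finset.sum_congr rfl e1, Finset.sum_add_distrib, ih,
      Finset.sum_range_succ (fun s => g (dd L s)), e2, e3,
      Finset.sum_range_reflect (fun j => g (j + 1)) L, Finset.sum_range_succ,
      Finset.sum_range_succ' (fun r => g r) L]
    push_cast
    ring

/-- The main sum for the products. -/
lemma M2_est (L : ℕ) {ω : ℝ} (hω : 0 < ω) (h3 : ω ≤ 3) :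
    |(∑ t ∈ Finset.range L, ∑ s ∈ Finset.range L, Real.exp (-(ω * |(t : ℝ) - s|)) ^ 2) - L / ω| ≤
      L + 25 / ω ^ 2 := by
  set y : ℝ := Real.exp (-(2 * ω)) with hy
  have e0 : ∀ t s : ℕ, Real.exp (-(ω * |(t : ℝ) - s|)) ^ 2 = y ^ (dd t s) := by
    intro t s
    rw [hy, ← Real.exp_nat_mul, ← Real.exp_nat_mul, dd_cast]; push_cast; ring_nf
  simp_rw [e0]
  rw [dsum (fun r => y ^ r) L]
  have hy1 : 0 < 1 - y := exp_ne (by positivity)
  have hy0 : 0 < y := Real.exp_pos _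
  set v : ℝ := 1 / (1 - y) with hv
  have hv1 : v ≤ 1 / (2 * ω) + 1 := inv_sub_le (by positivity)
  have hv2 : 1 / (2 * ω) ≤ v := inv_sub_ge (by positivity)
  have hv0 : 0 < v := by positivity
  have e1 : ∀ n : ℕ, ∑ r ∈ Finset.range (n + 1), y ^ r = v - v * y ^ (n + 1) := by
    intro n
    rw [geom_sum_eq (by linarith), hv]
    have : y - 1 ≠ 0 := by linarith
    field_simp; ring
  simp_rw [e1, Finset.sum_sub_distrib, ← Finset.mul_sum]
  simp only [Finset.sum_const, Finset.card_range, nsmul_eq_mul, pow_zero, mul_one]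
  have h5 : ∑ i ∈ Finset.range L, y ^ (i + 1) ≤ v := by
    refine le_trans ?_ (geom_le hy0.le (by linarith) L)
    exact Finset.sum_le_sum fun i _ => pow_le_pow_of_le_one hy0.le (by linarith) (by omega)
  have h6 : 0 ≤ ∑ i ∈ Finset.range L, y ^ (i + 1) := Finset.sum_nonneg fun _ _ => by positivity
  set Sg := ∑ i ∈ Finset.range L, y ^ (i + 1)
  have h7 : v ≤ 7 / 2 / ω := by
    have : 1 / (2 * ω) + 1 ≤ 7 / 2 / ω := by
      rw [div_add' _ _ _ (by positivity), div_div, div_le_div_iff_of_pos_right (by positivity)]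
      linarith
    linarith
  have h8 : v * Sg ≤ 49 / 4 / ω ^ 2 := by
    calc v * Sg ≤ (7 / 2 / ω) * (7 / 2 / ω) := by
          apply mul_le_mul h7 (h5.trans h7) h6 (by positivity)
      _ = 49 / 4 / ω ^ 2 := by field_simp; norm_num
  have h9 : 0 ≤ v * Sg := by positivity
  have h10 : (L : ℝ) / ω = L * (2 * (1 / (2 * ω))) := by field_simp
  have h11 : 25 / ω ^ 2 = 2 * (49 / 4 / ω ^ 2) + 1 / 2 / ω ^ 2 := by field_simp; norm_num
  have h12 : 0 < 1 / 2 / ω ^ 2 := by positivity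
  have hL : (0 : ℝ) ≤ L := Nat.cast_nonneg _
  rw [h10, h11]
  set w := 1 / (2 * ω)
  rw [abs_le]
  constructor
  · nlinarith [mul_le_mul_of_nonneg_left hv2 hL]
  · nlinarith [mul_le_mul_of_nonneg_left hv1 hL]

lemma exp_three_lt : Real.exp 3 < 21 := by
  have h := Real.exp_one_lt_d9
  have h2 : Real.exp 3 = Real.exp 1 ^ 3 := by rw [← Real.exp_nat_mul]; norm_num
  rw [h2]
  calc Real.exp 1 ^ 3 < 2.7182818286 ^ 3 := pow_lt_pow_left₀ h (Real.exp_pos _).le (by norm_num)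
    _ < 21 := by norm_num

lemma sinh_sub_le {ω : ℝ} (hω : 0 < ω) (h3 : ω ≤ 3) : Real.sinh ω - ω ≤ 11 * ω ^ 2 := by
  rcases le_total ω 1 with h | h
  · have h1 := Real.abs_exp_sub_one_sub_id_le (x := ω) (by rw [abs_of_pos hω]; exact h)
    have h2 := Real.abs_exp_sub_one_sub_id_le (x := -ω) (by rw [abs_neg, abs_of_pos hω]; exact h)
    rw [abs_le] at h1 h2
    rw [Real.sinh_eq]
    nlinarith [h1.1, h1.2, h2.1, h2.2]
  · have h1 : Real.exp ω ≤ Real.exp 3 := Real.exp_le_exp.2 h3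
    have h2 := exp_three_lt
    have h4 := Real.exp_pos (-ω)
    rw [Real.sinh_eq]
    nlinarith

lemma sinh_ge {ω : ℝ} (hω : 0 < ω) : ω ≤ Real.sinh ω := (Real.self_le_sinh_iff.2 hω.le)

lemma inv_sinh_le {ω : ℝ} (hω : 0 < ω) : 1 / Real.sinh ω ^ 2 ≤ 1 / ω ^ 2 :=
  one_div_le_one_div_of_le (by positivity) (pow_le_pow_left₀ hω.le (sinh_ge hω) 2)

lemma inv_sinh_ge {ω : ℝ} (hω : 0 < ω) (h3 : ω ≤ 3) :
    1 / ω ^ 2 - 22 / ω ≤ 1 / Real.sinh ω ^ 2 := by
  have h1 := sinh_ge hω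
  have h2 := sinh_sub_le hω h3
  have h0 : 0 < Real.sinh ω := by linarith
  set u := Real.sinh ω
  have h4 : 1 / ω ^ 2 - 1 / u ^ 2 = (u - ω) * (u + ω) / (ω ^ 2 * u ^ 2) := by field_simp; ring
  have h5 : (u - ω) * (u + ω) ≤ 11 * ω ^ 2 * (2 * u) :=
    mul_le_mul h2 (by linarith) (by positivity) (by positivity)
  have h6 : (u - ω) * (u + ω) / (ω ^ 2 * u ^ 2) ≤ 11 * ω ^ 2 * (2 * u) / (ω ^ 2 * u ^ 2) :=
    div_le_div_of_nonneg_right h5 (by positivity)
  have h7 : 11 * ω ^ 2 * (2 * u) / (ω ^ 2 * u ^ 2) = 22 / u := by field_simp; norm_num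
  have h8 : 22 / u ≤ 22 / ω := div_le_div_of_nonneg_left (by norm_num) hω h1
  linarith

lemma exp_step {ω a b : ℝ} (hω : 0 < ω) (h3 : ω ≤ 3) (h : |a - b| ≤ 1) :
    |Real.exp (-(ω * a)) - Real.exp (-(ω * b))| ≤ 21 * ω * Real.exp (-(ω * b)) := by
  have h1 : Real.exp (-(ω * a)) - Real.exp (-(ω * b)) =
      (Real.exp (ω * (b - a)) - 1) * Real.exp (-(ω * b)) := by
    rw [sub_mul, ← Real.exp_add, one_mul]; ring_nf
  rw [h1, abs_mul, abs_of_pos (Real.exp_pos (-(ω * b)))]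
  apply mul_le_mul_of_nonneg_right _ (Real.exp_pos _).le
  rw [abs_le] at h
  have h4 : Real.exp (ω * (b - a)) ≤ Real.exp ω := Real.exp_le_exp.2 (by nlinarith [h.1, h.2])
  have h5 : Real.exp ω ≤ 21 := (Real.exp_le_exp.2 h3).trans exp_three_lt.le
  have h6 := Real.add_one_le_exp (-ω)
  have h7 : Real.exp ω * Real.exp (-ω) = 1 := by rw [← Real.exp_add]; simp
  have h8 := Real.exp_pos ω
  have h9 : Real.exp ω - 1 ≤ ω * Real.exp ω := by nlinarith
  have h10 := Real.add_one_le_exp (ω * (b - a))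
  rw [abs_le]
  constructor
  · nlinarith [h.1, h.2]
  · nlinarith

end Pool.Agent.Y528.AF
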